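import Mathlib
import Pool.Agent.H42.Hnh2

open Pool.Agent.H42.HnhDefs

theorem Pool.Agent.Results.MP_43aaf1_gt.Q2.result :
    ∃ (M : Type) (_ : TopologicalSpace M), HNH 2 M ∧ ∀ z : M, Nonempty (NH z ≃ₜ ℝ) :=
  Pool.Agent.H42.Hnh2.line
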